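import Mathlib
import Pool.Agent.Helper71.MR.Fin

/-!
# An exact formula for the extreme values of M(x)/√x, with recurrence

Let `M` be the Mertens function and let `M*(x) = M(x) + 2 - 2 ∑ μ(k)/k Cin(2π/(kx))` for `x > 0`,
`Cin` being the entire cosine integral (for `x ≥ 1` the two functions differ by a bounded explicit
analytic function, for `x < 1` the function `M*` is this explicit function). Unconditionally, the
upper limit of `M(x)/√x` is the supremum of `M*(x)/√x` over all `x > 0`, and also over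
`0 < x < 1`, the same holds for lower limits and infima, and every level below the upper limit
(above the lower limit) is passed in every window `[X, C X log X]`, by `M(x)/√x` and by the
function `√x M*(1/x)`.
-/

namespace Pool.Agent.Helper71.Reserve.MP_a499ba_nt.RecurrentExtremes

open Filter Set

/-- The Mertens function `M(x) = ∑_{1 ≤ n ≤ x} μ(n)`. -/
noncomputable def mertens (x : ℝ) : ℝ :=
  ∑ n ∈ Finset.Icc 1 ⌊x⌋₊, ((ArithmeticFunction.moebius n : ℤ) : ℝ)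

/-- The entire cosine integral `Cin(z) = ∫_0^1 (1 - cos(z y)) / y dy`. -/
noncomputable def Cin (z : ℝ) : ℝ := ∫ y in (0:ℝ)..1, (1 - Real.cos (z * y)) / y

/-- The completed Mertens function `M*(x) = M(x) + 2 - 2 ∑_{k ≥ 1} μ(k)/k Cin(2π/(kx))`, `x > 0`
(the term `k = 0` of the sum is zero). -/
noncomputable def mstar (x : ℝ) : ℝ :=
  mertens x + 2 -
    2 * ∑' k : ℕ, ((ArithmeticFunction.moebius k : ℤ) : ℝ) / k * Cin (2 * Real.pi / (k * x))

/-- `M(x)/√x` -/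
noncomputable def f (x : ℝ) : ℝ := mertens x / √x

/-- `M*(x)/√x` -/
noncomputable def g (x : ℝ) : ℝ := mstar x / √x

open Pool.Agent.Helper71.MR in
theorem Cin_eq (z : ℝ) : Cin z = Pool.Agent.Helper71.MR.Cin z := by
  unfold Cin Pool.Agent.Helper71.MR.Cin
  rw [intervalIntegral.integral_of_le zero_le_one]

theorem sqrt_exp (t : ℝ) : √(Real.exp t) = Real.exp (t / 2) := by
  rw [Real.exp_half]

open Pool.Agent.Helper71.MR in
theorem f_exp (t : ℝ) : f (Real.exp t) = mm t := by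
  unfold f mm mertens
  rw [sqrt_exp, div_eq_mul_inv, ← Real.exp_neg, neg_div]
  rfl

open Pool.Agent.Helper71.MR in
theorem g_exp (t : ℝ) : g (Real.exp t) = ms t := by
  have h1 : (∑' k : ℕ, ((ArithmeticFunction.moebius k : ℤ) : ℝ) / k *
      Cin (2 * Real.pi / (k * Real.exp t))) = Qf (Real.exp (-t)) := by
    unfold Qf
    apply tsum_congr
    intro k
    rw [Cin_eq]
    have : 2 * Real.pi / (k * Real.exp t) = 2 * Real.pi * Real.exp (-t) / k := by
      rw [Real.exp_neg, mul_comm (k : ℝ), ← div_div, div_eq_mul_inv (2 * Real.pi)]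
    rw [this]
    rfl
  have h2 : g (Real.exp t) = f (Real.exp t) +
      (2 - 2 * ∑' k : ℕ, ((ArithmeticFunction.moebius k : ℤ) : ℝ) / k *
        Cin (2 * Real.pi / (k * Real.exp t))) * (√(Real.exp t))⁻¹ := by
    unfold g f mstar
    ring
  rw [h2, f_exp, h1, sqrt_exp, ← Real.exp_neg, ← neg_div]
  rfl

/-- one-sided recurrence in multiplicative form, for a sign `σ` -/
theorem windows {σ K : ℝ} (hσ : |σ| = 1) {x₀ : ℝ} (hx₀ : 0 < x₀) (h : K < σ * g x₀) :
    ∃ C : ℝ, 0 < C ∧ ∀ X : ℝ, C ≤ X →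
      (∃ x ∈ Icc X (C * X * Real.log X), K < σ * f x) ∧
      (∃ x ∈ Icc X (C * X * Real.log X), K < σ * g (1 / x)) := by
  rw [← Real.exp_log hx₀, g_exp] at h
  obtain ⟨C1, h1⟩ := Pool.Agent.Helper71.MR.recurR hσ h
  obtain ⟨C2, h2⟩ := Pool.Agent.Helper71.MR.recurL hσ h
  set D : ℝ := max (max C1 C2) 1 with hD
  have hD1 : C1 ≤ D := (le_max_left _ _).trans (le_max_left _ _)
  have hD2 : C2 ≤ D := (le_max_right _ _).trans (le_max_left _ _)
  have hD3 : 1 ≤ D := le_max_right _ _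
  refine ⟨Real.exp D, Real.exp_pos _, ?_⟩
  intro X hX
  have hX0 : 0 < X := (Real.exp_pos _).trans_le hX
  have hT : D ≤ Real.log X := by
    rw [← Real.log_exp D]
    exact Real.log_le_log (Real.exp_pos _) hX
  have hT0 : 0 < Real.log X := by linarith
  have hmem : ∀ C' : ℝ, C' ≤ D → ∀ t ∈ Icc (Real.log X) (Real.log X + Real.log (Real.log X) + C'),
      Real.exp t ∈ Icc X (Real.exp D * X * Real.log X) := by
    intro C' hC' t ht
    constructor
    · calc X = Real.exp (Real.log X) := (Real.exp_log hX0).symm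
        _ ≤ _ := Real.exp_le_exp.mpr ht.1
    · calc Real.exp t ≤ Real.exp (Real.log X + Real.log (Real.log X) + D) :=
            Real.exp_le_exp.mpr (ht.2.trans (by linarith))
        _ = Real.exp D * X * Real.log X := by
            rw [Real.exp_add, Real.exp_add, Real.exp_log hX0, Real.exp_log hT0]; ring
  constructor
  · obtain ⟨t, ht, ht2⟩ := h1 (Real.log X) (hD1.trans hT)
    exact ⟨Real.exp t, hmem C1 hD1 t ht, by rwa [f_exp]⟩
  · obtain ⟨t, ht, ht2⟩ := h2 (Real.log X) (hD2.trans hT)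
    refine ⟨Real.exp t, hmem C2 hD2 t ht, ?_⟩
    rwa [one_div, ← Real.exp_neg, g_exp]

/-- the difference tends to zero -/
theorem diff_small {η : ℝ} (hη : 0 < η) : ∀ᶠ x in atTop, |g x - f x| ≤ η := by
  obtain ⟨T, hT⟩ := Pool.Agent.Helper71.MR.rr_event hη
  filter_upwards [eventually_ge_atTop (Real.exp T)] with x hx
  have hx0 : 0 < x := (Real.exp_pos _).trans_le hx
  have h1 : T ≤ Real.log x := by
    rw [← Real.log_exp T]
    exact Real.log_le_log (Real.exp_pos _) hx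
  have h2 := hT _ h1
  have h3 : g x - f x = Pool.Agent.Helper71.MR.rr (Real.log x) := by
    have e1 := g_exp (Real.log x)
    have e2 := f_exp (Real.log x)
    rw [Real.exp_log hx0] at e1 e2
    rw [e1, e2]
    unfold Pool.Agent.Helper71.MR.ms
    ring
  rwa [h3]

theorem limsup_le : limsup (fun x : ℝ => ((f x : ℝ) : EReal)) atTop ≤ ⨆ x ∈ Ioi (0:ℝ), ((g x : ℝ) : EReal) := by
  by_contra hcon
  push Not at hcon
  obtain ⟨q, hq1, hq2⟩ := EReal.lt_iff_exists_real_btwn.mp hcon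
  obtain ⟨q', hq3, hq4⟩ := EReal.lt_iff_exists_real_btwn.mp hq2
  have hqq : q < q' := by exact_mod_cast hq3
  have h1 : ∃ᶠ x in atTop, ((q' : ℝ) : EReal) < ((f x : ℝ) : EReal) := frequently_lt_of_lt_limsup (by isBoundedDefault) hq4
  have h2 := diff_small (η := q' - q) (by linarith)
  obtain ⟨x, hx1, hx2, hx3⟩ := (h1.and_eventually (h2.and (eventually_gt_atTop 0))).exists
  have h3 : q' < f x := by exact_mod_cast hx1
  have h4 := abs_le.mp hx2
  have h5 : q < g x := by linarith [h4.1]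
  have h6 : ((g x : ℝ) : EReal) ≤ ⨆ x ∈ Ioi (0:ℝ), ((g x : ℝ) : EReal) :=
    le_iSup₂ (f := fun (x : ℝ) (_ : x ∈ Ioi (0:ℝ)) => ((g x : ℝ) : EReal)) x hx3
  have h7 : ((g x : ℝ) : EReal) < (q : EReal) := h6.trans_lt hq1
  have h8 : g x < q := by exact_mod_cast h7
  linarith

theorem le_liminf : (⨅ x ∈ Ioi (0:ℝ), ((g x : ℝ) : EReal)) ≤ liminf (fun x : ℝ => ((f x : ℝ) : EReal)) atTop := by
  by_contra hcon
  push Not at hcon
  obtain ⟨q, hq1, hq2⟩ := EReal.lt_iff_exists_real_btwn.mp hcon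
  obtain ⟨q', hq3, hq4⟩ := EReal.lt_iff_exists_real_btwn.mp hq1
  have hqq : q' < q := by exact_mod_cast hq4
  have h1 : ∃ᶠ x in atTop, ((f x : ℝ) : EReal) < ((q' : ℝ) : EReal) := frequently_lt_of_liminf_lt (by isBoundedDefault) hq3
  have h2 := diff_small (η := q - q') (by linarith)
  obtain ⟨x, hx1, hx2, hx3⟩ := (h1.and_eventually (h2.and (eventually_gt_atTop 0))).exists
  have h3 : f x < q' := by exact_mod_cast hx1
  have h4 := abs_le.mp hx2
  have h5 : g x < q := by linarith [h4.2]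
  have h6 : (⨅ x ∈ Ioi (0:ℝ), ((g x : ℝ) : EReal)) ≤ ((g x : ℝ) : EReal) :=
    iInf₂_le (f := fun (x : ℝ) (_ : x ∈ Ioi (0:ℝ)) => ((g x : ℝ) : EReal)) x hx3
  have h7 : (q : EReal) < ((g x : ℝ) : EReal) := hq2.trans_le h6
  have h8 : q < g x := by exact_mod_cast h7
  linarith

theorem sup_le_limsup {x₀ : ℝ} (hx₀ : 0 < x₀) :
    ((g x₀ : ℝ) : EReal) ≤ limsup (fun x : ℝ => ((f x : ℝ) : EReal)) atTop := by
  by_contra hcon
  push Not at hcon
  obtain ⟨q, hq1, hq2⟩ := EReal.lt_iff_exists_real_btwn.mp hcon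
  have h0 : q < 1 * g x₀ := by rw [one_mul]; exact_mod_cast hq2
  obtain ⟨C, hC, h⟩ := windows (σ := 1) (by norm_num) hx₀ h0
  have h1 : ∃ᶠ x in atTop, ((q : ℝ) : EReal) ≤ ((f x : ℝ) : EReal) := by
    rw [frequently_atTop]
    intro a
    obtain ⟨⟨x, hx, hx2⟩, _⟩ := h (max a C) (le_max_right _ _)
    refine ⟨x, (le_max_left _ _).trans hx.1, ?_⟩
    rw [one_mul] at hx2
    exact_mod_cast hx2.le
  have h2 := le_limsup_of_frequently_le h1 (by isBoundedDefault)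
  exact absurd (hq1.trans_le h2) (lt_irrefl _)

theorem liminf_le_inf {x₀ : ℝ} (hx₀ : 0 < x₀) :
    liminf (fun x : ℝ => ((f x : ℝ) : EReal)) atTop ≤ ((g x₀ : ℝ) : EReal) := by
  by_contra hcon
  push Not at hcon
  obtain ⟨q, hq1, hq2⟩ := EReal.lt_iff_exists_real_btwn.mp hcon
  have h0 : -q < -1 * g x₀ := by
    have : g x₀ < q := by exact_mod_cast hq1
    linarith
  obtain ⟨C, hC, h⟩ := windows (σ := -1) (by norm_num) hx₀ h0
  have h1 : ∃ᶠ x in atTop, ((f x : ℝ) : EReal) ≤ ((q : ℝ) : EReal) := by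
    rw [frequently_atTop]
    intro a
    obtain ⟨⟨x, hx, hx2⟩, _⟩ := h (max a C) (le_max_right _ _)
    refine ⟨x, (le_max_left _ _).trans hx.1, ?_⟩
    have : f x ≤ q := by linarith
    exact_mod_cast this
  have h2 := liminf_le_of_frequently_le h1 (by isBoundedDefault)
  exact absurd (hq2.trans_le h2) (lt_irrefl _)

theorem sup_le_dual {x₀ : ℝ} (hx₀ : 0 < x₀) :
    ((g x₀ : ℝ) : EReal) ≤ ⨆ x ∈ Ioo (0:ℝ) 1, ((g x : ℝ) : EReal) := by
  by_contra hcon
  push Not at hcon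
  obtain ⟨q, hq1, hq2⟩ := EReal.lt_iff_exists_real_btwn.mp hcon
  have h0 : q < 1 * g x₀ := by rw [one_mul]; exact_mod_cast hq2
  obtain ⟨C, hC, h⟩ := windows (σ := 1) (by norm_num) hx₀ h0
  obtain ⟨_, ⟨x, hx, hx2⟩⟩ := h (max 2 C) (le_max_right _ _)
  have hx1 : 2 ≤ x := (le_max_left _ _).trans hx.1
  have hmem : 1 / x ∈ Ioo (0:ℝ) 1 := ⟨by positivity, by rw [div_lt_one (by linarith)]; linarith⟩
  have h6 : ((g (1 / x) : ℝ) : EReal) ≤ ⨆ x ∈ Ioo (0:ℝ) 1, ((g x : ℝ) : EReal) :=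
    le_iSup₂ (f := fun (x : ℝ) (_ : x ∈ Ioo (0:ℝ) 1) => ((g x : ℝ) : EReal)) (1 / x) hmem
  have h7 : ((g (1 / x) : ℝ) : EReal) < (q : EReal) := h6.trans_lt hq1
  have h8 : g (1 / x) < q := by exact_mod_cast h7
  linarith

theorem dual_le_inf {x₀ : ℝ} (hx₀ : 0 < x₀) :
    (⨅ x ∈ Ioo (0:ℝ) 1, ((g x : ℝ) : EReal)) ≤ ((g x₀ : ℝ) : EReal) := by
  by_contra hcon
  push Not at hcon
  obtain ⟨q, hq1, hq2⟩ := EReal.lt_iff_exists_real_btwn.mp hcon
  have h0 : -q < -1 * g x₀ := by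
    have : g x₀ < q := by exact_mod_cast hq1
    linarith
  obtain ⟨C, hC, h⟩ := windows (σ := -1) (by norm_num) hx₀ h0
  obtain ⟨_, ⟨x, hx, hx2⟩⟩ := h (max 2 C) (le_max_right _ _)
  have hx1 : 2 ≤ x := (le_max_left _ _).trans hx.1
  have hmem : 1 / x ∈ Ioo (0:ℝ) 1 := ⟨by positivity, by rw [div_lt_one (by linarith)]; linarith⟩
  have h6 : (⨅ x ∈ Ioo (0:ℝ) 1, ((g x : ℝ) : EReal)) ≤ ((g (1 / x) : ℝ) : EReal) :=
    iInf₂_le (f := fun (x : ℝ) (_ : x ∈ Ioo (0:ℝ) 1) => ((g x : ℝ) : EReal)) (1 / x) hmem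
  have h7 : (q : EReal) < ((g (1 / x) : ℝ) : EReal) := hq2.trans_le h6
  have h8 : q < g (1 / x) := by exact_mod_cast h7
  linarith

theorem limsup_eq : limsup (fun x : ℝ => ((f x : ℝ) : EReal)) atTop = ⨆ x ∈ Ioi (0:ℝ), ((g x : ℝ) : EReal) :=
  le_antisymm limsup_le (iSup₂_le fun _ hx => sup_le_limsup hx)

theorem liminf_eq : liminf (fun x : ℝ => ((f x : ℝ) : EReal)) atTop = ⨅ x ∈ Ioi (0:ℝ), ((g x : ℝ) : EReal) :=
  le_antisymm (le_iInf₂ fun _ hx => liminf_le_inf hx) le_liminf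

/-- The upper and lower limits of `M(x)/√x` are the supremum and the infimum of the explicit
function `M*(x)/√x`, over `x > 0` and over `0 < x < 1`, and every level strictly between them is
passed in every window `[X, C X log X]`. No hypothesis is assumed. -/
theorem result :
    (limsup (fun x : ℝ => ((mertens x / √x : ℝ) : EReal)) atTop =
        ⨆ x ∈ Ioi (0:ℝ), ((mstar x / √x : ℝ) : EReal) ∧
      limsup (fun x : ℝ => ((mertens x / √x : ℝ) : EReal)) atTop =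
        ⨆ x ∈ Ioo (0:ℝ) 1, ((mstar x / √x : ℝ) : EReal)) ∧
    (liminf (fun x : ℝ => ((mertens x / √x : ℝ) : EReal)) atTop =
        ⨅ x ∈ Ioi (0:ℝ), ((mstar x / √x : ℝ) : EReal) ∧
      liminf (fun x : ℝ => ((mertens x / √x : ℝ) : EReal)) atTop =
        ⨅ x ∈ Ioo (0:ℝ) 1, ((mstar x / √x : ℝ) : EReal)) ∧
    (∀ K : ℝ, (K : EReal) < limsup (fun x : ℝ => ((mertens x / √x : ℝ) : EReal)) atTop →
      ∃ C : ℝ, 0 < C ∧ ∀ X : ℝ, C ≤ X →
        (∃ x ∈ Icc X (C * X * Real.log X), K < mertens x / √x) ∧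
        (∃ x ∈ Icc X (C * X * Real.log X), K < √x * mstar (1 / x))) ∧
    (∀ K : ℝ, liminf (fun x : ℝ => ((mertens x / √x : ℝ) : EReal)) atTop < (K : EReal) →
      ∃ C : ℝ, 0 < C ∧ ∀ X : ℝ, C ≤ X →
        (∃ x ∈ Icc X (C * X * Real.log X), mertens x / √x < K) ∧
        (∃ x ∈ Icc X (C * X * Real.log X), √x * mstar (1 / x) < K)) := by
  have hgd : ∀ x : ℝ, 0 < x → g (1 / x) = √x * mstar (1 / x) := by
    intro x hx
    unfold g
    rw [one_div, Real.sqrt_inv, div_inv_eq_mul, mul_comm]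
  refine ⟨⟨limsup_eq, ?_⟩, ⟨liminf_eq, ?_⟩, ?_, ?_⟩
  · refine le_antisymm ?_ (iSup₂_le fun x hx => sup_le_limsup hx.1)
    exact limsup_le.trans (iSup₂_le fun x hx => sup_le_dual hx)
  · refine le_antisymm (le_iInf₂ fun x hx => liminf_le_inf hx.1) ?_
    have h : (⨅ x ∈ Ioo (0:ℝ) 1, ((g x : ℝ) : EReal)) ≤ ⨅ x ∈ Ioi (0:ℝ), ((g x : ℝ) : EReal) :=
      le_iInf₂ fun x hx => dual_le_inf hx
    exact h.trans le_liminf
  · intro K hK
    have h1 : (K : EReal) < ⨆ x ∈ Ioi (0:ℝ), ((g x : ℝ) : EReal) := hK.trans_le limsup_le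
    simp only [lt_iSup_iff] at h1
    obtain ⟨x₀, hx₀, h2⟩ := h1
    have h3 : K < 1 * g x₀ := by rw [one_mul]; exact_mod_cast h2
    obtain ⟨C, hC, h⟩ := windows (σ := 1) (by norm_num) hx₀ h3
    refine ⟨C, hC, fun X hX => ?_⟩
    obtain ⟨⟨x, hx, hx2⟩, ⟨y, hy, hy2⟩⟩ := h X hX
    rw [one_mul] at hx2 hy2
    rw [hgd y (hC.trans_le (hX.trans hy.1))] at hy2
    exact ⟨⟨x, hx, hx2⟩, ⟨y, hy, hy2⟩⟩
  · intro K hK
    have h1 : (⨅ x ∈ Ioi (0:ℝ), ((g x : ℝ) : EReal)) < (K : EReal) := le_liminf.trans_lt hK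
    simp only [iInf_lt_iff] at h1
    obtain ⟨x₀, hx₀, h2⟩ := h1
    have h3 : -K < -1 * g x₀ := by
      have : g x₀ < K := by exact_mod_cast h2
      linarith
    obtain ⟨C, hC, h⟩ := windows (σ := -1) (by norm_num) hx₀ h3
    refine ⟨C, hC, fun X hX => ?_⟩
    obtain ⟨⟨x, hx, hx2⟩, ⟨y, hy, hy2⟩⟩ := h X hX
    rw [hgd y (hC.trans_le (hX.trans hy.1))] at hy2
    refine ⟨⟨x, hx, ?_⟩, ⟨y, hy, by linarith⟩⟩
    have : f x < K := by linarith
    exact this

end Pool.Agent.Helper71.Reserve.MP_a499ba_nt.RecurrentExtremes
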